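import Pool.Agent.R396.TL.Tay
import Pool.Agent.R396.TL.Poi
import Pool.Agent.R396.TL.Gen
import Pool.Agent.R396.TL.Red

set_option autoImplicit false

/-!
# MP_d7404b_nt, Q1: extremal Type II lattices of rank 72 are generated by their norm 12 vectors
-/

namespace Pool.Agent.Results.MP_d7404b_nt.NormTwelve

open Pool.Agent.R396.TL

/-- Every extremal Type II lattice `L` of rank `72` is the `ℤ`-span of its vectors of norm `12`. -/
theorem result (L : Submodule ℤ (EuclideanSpace ℝ (Fin 72))) (hL : IsExtremal72 L) :
    Submodule.span ℤ {x | x ∈ L ∧ inner ℝ x x = (12 : ℝ)} = L :=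
  jobRed (jobGen jobLow (jobDesign jobSum jobTheta)) L hL

end Pool.Agent.Results.MP_d7404b_nt.NormTwelve
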